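import Pool.Agent.Results.MP_7475bd_nt.UnlikePowers
import Pool.Agent.X134.Win.NearC

/-!
# Sums of unlike powers do not come near generic directions

The direction of a nonzero vector `w ∈ ℤ^n` is `w / max |w i|`. Let `n` and `E` be given.

1. For every `ε > 0` there are `R` and `δ > 0` such that for every `η > 0` and all points `x ∈ ℝ^n` outside a set of
Hausdorff dimension at most `ε / η` the following holds for all large `Y` and ALL nonzero integral coefficients `u i` with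
`|u i| ≤ Y ^ δ`: whenever `∑ u i * s i * y i ^ m i = 0` without vanishing partial sum, the terms `s i * y i ^ m i` having
no common factor, with integers `|y i| ≤ Y`, not all `± 1`, exponents `m i ≥ R`, cofactors `|s i| ≤ Y ^ E` and terms of
absolute value at most `exp (Y ^ δ)`, the direction of the vector `(y i ^ m i)` of powers has a distance larger than
`Y ^ (-η)` from `x`.

2. For all `x` outside a set of dimension zero this holds for every `η > 0`, with `R` and `δ` depending on `x` and `η`.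
-/

set_option autoImplicit false

open Filter Topology
open scoped ENNReal

namespace Pool.Agent.Results.MP_7475bd_nt.PowersNearDirections

/-- a relation `∑ u i * (s i * y i ^ m i) = 0` without vanishing partial sum whose terms `s i * y i ^ m i` have no common
factor and absolute values at most `V` -/
structure Relation {n : ℕ} (V : ℝ) (u s y : Fin n → ℤ) (m : Fin n → ℕ) : Prop where
  sum : ∑ i, u i * (s i * y i ^ m i) = 0
  nvs : ∀ K : Finset (Fin n), K.Nonempty → K ≠ Finset.univ →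
    ∑ i ∈ K, u i * (s i * y i ^ m i) ≠ 0
  primitive : ∀ d : ℕ, (∀ i, (d : ℤ) ∣ s i * y i ^ m i) → d = 1
  height_le : ∀ i, ((|s i * y i ^ m i| : ℤ) : ℝ) ≤ V

/-- the direction of an integral vector: the vector divided by the largest absolute value of its coordinates -/
noncomputable def direction {n : ℕ} (w : Fin n → ℤ) : Fin n → ℝ :=
  fun i => (w i : ℝ) / ‖(fun j => (w j : ℝ))‖

/-- for all nonzero integers `|u i| ≤ Y ^ δ`, all nonzero integers `|y i| ≤ Y`, not all of them `± 1`, exponents `m i ≥ R`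
and nonzero integers `|s i| ≤ Y ^ E` which form a relation with terms of absolute value at most `exp (Y ^ δ)`, the
direction of the vector `(y i ^ m i)` has a distance larger than `Y ^ (-η)` from `x` -/
def Far {n : ℕ} (E R : ℕ) (Y δ η : ℝ) (x : Fin n → ℝ) : Prop :=
  ∀ u s y : Fin n → ℤ, ∀ m : Fin n → ℕ,
    (∀ i, u i ≠ 0 ∧ ((|u i| : ℤ) : ℝ) ≤ Y ^ δ) → (∀ i, R ≤ m i) →
    (∀ i, y i ≠ 0 ∧ ((|y i| : ℤ) : ℝ) ≤ Y) → (∃ i, 2 ≤ |y i|) →
    (∀ i, s i ≠ 0 ∧ ((|s i| : ℤ) : ℝ) ≤ Y ^ E) → Relation (Real.exp (Y ^ δ)) u s y m →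
    Y ^ (-η) < dist (direction fun i => y i ^ m i) x

open Pool.Agent.X134.Win (two ht one_le_two near_family_eps exists_two rpow_le_two' ht_int zero_of_eps le_of_two_le)

lemma two_eq (n : ℕ) : (((2 ^ n : ℕ)) : ℝ) = two n := by
  unfold two
  push_cast
  rfl

lemma part1 (n E : ℕ) (ε : ℝ) (hε : 0 < ε) : ∃ (R : ℕ) (δ : ℝ), 0 < δ ∧ ∀ η : ℝ, 0 < η →
    ∃ F : Set (Fin n → ℝ), dimH F ≤ ENNReal.ofReal (ε / η) ∧ ∀ x : Fin n → ℝ, x ∉ F → ∃ Y₀ : ℝ, ∀ Y : ℝ, Y₀ ≤ Y →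
      Far E R Y δ η x := by
  obtain ⟨ε', hε', he'⟩ : ∃ ε' : ℝ, 0 < ε' ∧ (2 * (n : ℝ) + 1) * ε' = ε :=
    ⟨ε / (2 * n + 1), by positivity, by field_simp⟩
  obtain ⟨R, δ, hδ, hres⟩ := UnlikePowers.result n E ε' hε'
  refine ⟨R, min δ ε', lt_min hδ hε', fun η hη => ?_⟩
  obtain ⟨F, hF1, hF2⟩ := near_family_eps (X := Fin n → ℝ) (ι := Unit) (T := fun _ => Fin n → ℤ)
    (fun _ => direction) n hε' hη
    (fun _ k q => {w | ∃ u : Fin n → ℤ, (∀ i, (u i : ℚ) = q i) ∧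
      (∀ i, u i ≠ 0 ∧ ((|u i| : ℤ) : ℝ) ≤ Real.exp (((2 ^ k : ℕ) : ℝ) ^ δ)) ∧
      w ∈ UnlikePowers.powerVectors n E R δ (2 ^ k) u}) (fun _ => ⟨1, fun k q => by
      by_cases hq : ∃ u : Fin n → ℤ, (∀ i, (u i : ℚ) = q i) ∧
          (∀ i, u i ≠ 0 ∧ ((|u i| : ℤ) : ℝ) ≤ Real.exp (((2 ^ k : ℕ) : ℝ) ^ δ))
      · obtain ⟨u, hu1, hu2⟩ := hq
        obtain ⟨h1, h2⟩ := hres (2 ^ k) Nat.one_le_two_pow u hu2
        have hsub : {w | ∃ u : Fin n → ℤ, (∀ i, (u i : ℚ) = q i) ∧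
            (∀ i, u i ≠ 0 ∧ ((|u i| : ℤ) : ℝ) ≤ Real.exp (((2 ^ k : ℕ) : ℝ) ^ δ)) ∧
            w ∈ UnlikePowers.powerVectors n E R δ (2 ^ k) u} ⊆
            UnlikePowers.powerVectors n E R δ (2 ^ k) u := by
          rintro w ⟨u', hu', -, hw⟩
          have : u' = u := by
            funext i
            have h3 := (hu' i).trans (hu1 i).symm
            exact_mod_cast h3
          rwa [this] at hw
        refine ⟨h1.subset hsub, ?_⟩
        rw [one_mul]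
        refine (Nat.cast_le.2 (Set.ncard_le_ncard hsub h1)).trans (h2.trans (le_of_eq ?_))
        rw [two_eq]
      · have hemp : {w | ∃ u : Fin n → ℤ, (∀ i, (u i : ℚ) = q i) ∧
            (∀ i, u i ≠ 0 ∧ ((|u i| : ℤ) : ℝ) ≤ Real.exp (((2 ^ k : ℕ) : ℝ) ^ δ)) ∧
            w ∈ UnlikePowers.powerVectors n E R δ (2 ^ k) u} = ∅ := by
          ext w
          simp only [Set.mem_ofPred_eq, Set.mem_empty_iff_false, iff_false]
          rintro ⟨u, h1, h2, -⟩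
          exact hq ⟨u, h1, h2⟩
        rw [hemp]
        refine ⟨Set.finite_empty, ?_⟩
        rw [Set.ncard_empty, Nat.cast_zero, one_mul]
        exact Real.rpow_nonneg (zero_le_one.trans (one_le_two k)) _⟩)
  rw [he'] at hF1
  refine ⟨F, hF1, fun x hx => ?_⟩
  obtain ⟨k₀, hk₀⟩ := hF2 x hx ()
  refine ⟨max 1 (two k₀), fun Y hY u s y e hu he' hy hy2 hs hrel => ?_⟩
  have hY1 : 1 ≤ Y := le_trans (le_max_left _ _) hY
  have hYp : 0 < Y := by linarith
  obtain ⟨k, hk1, hk2⟩ := exists_two Y hY1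
  have hkk : k₀ ≤ k := le_of_two_le (le_trans (le_max_right _ _) hY) hk1
  have hδ0 : 0 ≤ min δ ε' := (lt_min hδ hε').le
  have hb1 : Y ^ min δ ε' ≤ two k ^ ε' :=
    (Real.rpow_le_rpow hYp.le hk1 hδ0).trans (Real.rpow_le_rpow_of_exponent_le (one_le_two k) (min_le_right _ _))
  have hb2 : Y ^ min δ ε' ≤ ((2 ^ k : ℕ) : ℝ) ^ δ := by
    rw [two_eq]
    exact (Real.rpow_le_rpow hYp.le hk1 hδ0).trans
      (Real.rpow_le_rpow_of_exponent_le (one_le_two k) (min_le_left _ _))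
  have hexp : Real.exp (Y ^ min δ ε') ≤ Real.exp (((2 ^ k : ℕ) : ℝ) ^ δ) := Real.exp_le_exp.2 hb2
  have hself : ∀ t : ℝ, t ≤ Real.exp t := fun t => by linarith [Real.add_one_le_exp t]
  have hmem : (fun i => y i ^ e i) ∈ UnlikePowers.powerVectors n E R δ (2 ^ k) u := by
    refine ⟨s, y, e, fun i => rfl, he', fun i => ⟨(hy i).1, ?_⟩, hy2, fun i => ⟨(hs i).1, ?_⟩,
      ⟨hrel.sum, hrel.nvs, hrel.primitive, fun i => (hrel.height_le i).trans hexp⟩⟩
    · have h1 : ((|y i| : ℤ) : ℝ) ≤ (((2 ^ k : ℕ) : ℤ) : ℝ) := by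
        rw [Int.cast_natCast, two_eq]
        exact (hy i).2.trans hk1
      exact_mod_cast h1
    · have h1 : ((|s i| : ℤ) : ℝ) ≤ ((((2 ^ k : ℕ) : ℤ) ^ E : ℤ) : ℝ) := by
        rw [Int.cast_pow, Int.cast_natCast, two_eq]
        exact (hs i).2.trans (pow_le_pow_left₀ hYp.le hk1 E)
      exact_mod_cast h1
  refine lt_of_le_of_lt (rpow_le_two' k hY1 hη.le hk2) ?_
  exact hk₀ k hkk (fun i => (u i : ℚ)) (fun i => by
    rw [ht_int _ (hu i).1]
    refine le_trans (le_of_eq ?_) ((hu i).2.trans hb1)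
    rw [Nat.cast_natAbs]) (fun i => y i ^ e i)
    ⟨u, fun i => rfl, fun i => ⟨(hu i).1, ((hu i).2.trans (hself _)).trans hexp⟩, hmem⟩

/-- **Theorem.** Let `n` and `E` be given.

1. For every `ε > 0` there are `R` and `δ > 0` such that for every `η > 0` there is a set `F ⊂ ℝ^n` of Hausdorff dimension
at most `ε / η` such that for every `x ∉ F` there is `Y₀` such that `Far E R Y δ η x` for all `Y ≥ Y₀`.

2. There is a set `F ⊂ ℝ^n` of Hausdorff dimension zero such that for every `x ∉ F` and `η > 0` there are `R`, `δ > 0` and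
`Y₀` such that `Far E R Y δ η x` for all `Y ≥ Y₀`. -/
theorem result (n E : ℕ) :
    (∀ ε : ℝ, 0 < ε → ∃ (R : ℕ) (δ : ℝ), 0 < δ ∧ ∀ η : ℝ, 0 < η →
      ∃ F : Set (Fin n → ℝ), dimH F ≤ ENNReal.ofReal (ε / η) ∧ ∀ x : Fin n → ℝ, x ∉ F → ∃ Y₀ : ℝ, ∀ Y : ℝ, Y₀ ≤ Y →
        Far E R Y δ η x) ∧
    (∃ F : Set (Fin n → ℝ), dimH F = 0 ∧ ∀ x : Fin n → ℝ, x ∉ F → ∀ η : ℝ, 0 < η → ∃ (R : ℕ) (δ Y₀ : ℝ), 0 < δ ∧
      ∀ Y : ℝ, Y₀ ≤ Y → Far E R Y δ η x) := by
  refine ⟨part1 n E, ?_⟩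
  choose R δ hδ h using fun m : ℕ => part1 n E (1 / ((m : ℝ) + 1)) (by positivity)
  obtain ⟨F, hF1, hF2⟩ := zero_of_eps
    (fun m η (x : Fin n → ℝ) => ∃ Y₀ : ℝ, ∀ Y : ℝ, Y₀ ≤ Y → Far E (R m) Y (δ m) η x)
    (fun m η η' x _ hηη ⟨Y₀, hY₀⟩ => ⟨max 1 Y₀, fun Y hY u s y e h1 h2 h3 h4 h5 h6 =>
      lt_of_le_of_lt (Real.rpow_le_rpow_of_exponent_le ((le_max_left _ _).trans hY) (by linarith))
        (hY₀ Y ((le_max_right _ _).trans hY) u s y e h1 h2 h3 h4 h5 h6)⟩) h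
  refine ⟨F, hF1, fun x hx η hη => ?_⟩
  obtain ⟨m, Y₀, hY₀⟩ := hF2 x hx η hη
  exact ⟨R m, δ m, Y₀, hδ m, hY₀⟩

end Pool.Agent.Results.MP_7475bd_nt.PowersNearDirections
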