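import Pool.Agent.X61.RI.Curve

/-!
# The abcd inequality on rational curves for the points composed of an infinite random set of primes

Let `K` be a number field and `T` a random set of primes of `K`: the events `v ∈ T` are independent
and of probability at most `N(v) ^ (-τ)`. (For probabilities `N(v) ^ (-τ)`, `τ ≤ 1`, the set `T` is
infinite.) We consider the points `P(t) = (f_1(t) : ... : f_n(t))`, `t ∈ K`, of rational curves in
the hyperplane `z_1 + ... + z_n = 0`, where the `f_i` are polynomials over `K` without common zero,
`D` is the degree of the curve and `q` is a number of points of the curve with a parameter in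
`K ∪ {∞}` on the coordinate hyperplanes. The heights of the points are arbitrary.

1. With probability one, for all `n`, all these curves with `q ≥ 3`, `q > 2 / τ` and all finite sets
   `S` of primes at the same time, only finitely many points `P(t)` of the curve outside the coordinate
   hyperplanes are composed of primes of `S ∪ T`.
2. For each of these curves (`q ≥ 3`) and each `M > D / q` there is `ν > 0` such that, if
   `τ > 2/q - ν`, with probability one for all finite sets `S` all but finitely many of the points
   `P(t)` composed of primes of `S ∪ T` satisfy `h(P) ≤ M rad(P)`.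
-/

set_option autoImplicit false

namespace Pool.Agent.Results.MP_7475bd_nt.RandomInfinitePrimes

open NumberField IsDedekindDomain MeasureTheory ProbabilityTheory Polynomial
open Pool.Agent.X61.RI (IsCurve Meets csupp)

section Defs

variable {K : Type} [Field K] [NumberField K]

/-- the absolute norm of a prime -/
noncomputable def norm (v : HeightOneSpectrum (𝓞 K)) : ℝ := (Ideal.absNorm v.asIdeal : ℝ)

/-- `h(z)` (the height of Mathlib is relative to `K`) -/
noncomputable def height {n : ℕ} (z : Fin n → K) : ℝ :=
  Height.logHeight z / (Module.finrank ℚ K : ℝ)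

/-- `rad(z)` -/
noncomputable def rad {n : ℕ} (z : Fin n → K) : ℝ :=
  (∑ᶠ (v : HeightOneSpectrum (𝓞 K)) (_ : v ∈ csupp z), Real.log (norm v)) /
    (Module.finrank ℚ K : ℝ)

/-- the point of the curve with the parameter `t` -/
def point {n : ℕ} (f : Fin n → K[X]) (t : K) : Fin n → K := fun i => (f i).eval t

end Defs

/-- **Points of rational curves composed of an infinite random set of primes.** Let `K` be a number
field and `T = {v | ω ∈ E v}` a random set of primes, where the events `E v` are independent, of
probability at most `N(v) ^ (-τ)`.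

(1) With probability one the following holds for all `n, q, D`, all rational curves
`P(t) = (f_1(t) : ... : f_n(t))` of degree `D` over `K` in the hyperplane `z_1 + ... + z_n = 0` with `q`
different parameters in `K ∪ {∞}` of points on coordinate hyperplanes, `q ≥ 3`, `q > 2 / τ`, and all
finite sets `S` of primes: only finitely many `t ∈ K` give points `P(t)` outside the coordinate
hyperplanes all whose primes are in `S ∪ T`.

(2) For every such curve (with `q ≥ 3`) and every `M > D / q` there is `ν > 0` such that, if `τ ≥ 0`
and `τ > 2/q - ν`, with probability one for all finite sets `S` of primes there are only finitely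
many `t ∈ K` for which `P(t)` is outside the coordinate hyperplanes, all primes of `P(t)` are in
`S ∪ T` and `h(P(t)) > M rad(P(t))`. -/
theorem result (K : Type) [Field K] [NumberField K] :
    (∀ (τ : ℝ) (Ω : Type) [MeasurableSpace Ω] (μ : Measure Ω)
      (E : HeightOneSpectrum (𝓞 K) → Set Ω), iIndepSet E μ →
      (∀ v, μ (E v) ≤ ENNReal.ofReal (norm v ^ (-τ))) →
      ∀ᵐ ω ∂μ, ∀ (n q D : ℕ) (f : Fin n → K[X]) (c : Fin q → Option K)
        (S : Set (HeightOneSpectrum (𝓞 K))), IsCurve f D → Function.Injective c →
        (∀ l, Meets f D (c l)) → 3 ≤ q → 2 / (q : ℝ) < τ → S.Finite →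
        {t : K | (∀ i, point f t i ≠ 0) ∧ csupp (point f t) ⊆ S ∪ {v | ω ∈ E v}}.Finite) ∧
    (∀ (n q D : ℕ) (f : Fin n → K[X]) (c : Fin q → Option K), IsCurve f D →
      Function.Injective c → (∀ l, Meets f D (c l)) → 3 ≤ q → ∀ M : ℝ, (D : ℝ) / q < M →
      ∃ ν : ℝ, 0 < ν ∧ ∀ τ : ℝ, 0 ≤ τ → 2 / (q : ℝ) - ν < τ →
      ∀ (Ω : Type) [MeasurableSpace Ω] (μ : Measure Ω) (E : HeightOneSpectrum (𝓞 K) → Set Ω),
      iIndepSet E μ → (∀ v, μ (E v) ≤ ENNReal.ofReal (norm v ^ (-τ))) →
      ∀ᵐ ω ∂μ, ∀ S : Set (HeightOneSpectrum (𝓞 K)), S.Finite →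
        {t : K | (∀ i, point f t i ≠ 0) ∧ csupp (point f t) ⊆ S ∪ {v | ω ∈ E v} ∧
          M * rad (point f t) < height (point f t)}.Finite) := by
  classical
  refine ⟨?_, ?_⟩
  · intro τ Ω _ μ E hi hE
    filter_upwards [Pool.Agent.X61.RI.line_all hi hE] with ω hω
    intro n q D f c S hf hinj hc hq hτ hS
    obtain ⟨g, hg⟩ := hf.2.2.2
    have hB := Pool.Agent.X61.RI.goodC_finite f g c
    refine (hω q c (hS.toFinset ∪ hB.toFinset) hq hinj hτ).subset ?_
    rintro t ⟨ht, hsup⟩
    refine ⟨fun l hl => ?_, ?_⟩
    · have := hc l
      rw [hl] at this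
      obtain ⟨i, hi'⟩ := this
      exact ht i hi'
    · rintro v ⟨l, hl⟩
      rw [Finset.mem_union]
      by_cases hvB : v ∈ hB.toFinset
      · exact Or.inl (Or.inr hvB)
      · have hvg : Pool.Agent.X61.RI.GoodC v f g c := by
          by_contra h'
          exact hvB ((Set.Finite.mem_toFinset hB).2 h')
        rcases hsup (Pool.Agent.X61.RI.meets_supp hf hg hvg (hc l) ht hl) with h1 | h1
        · exact Or.inl (Or.inl ((Set.Finite.mem_toFinset hS).2 h1))
        · exact Or.inr h1
  · intro n q D f c hf hinj hc hq M hM
    obtain ⟨ν, hν, h⟩ := Pool.Agent.X61.RI.curve_exc hq hf hinj hc hM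
    refine ⟨ν, hν, ?_⟩
    intro τ hτ0 hτ Ω _ μ E hi hE
    filter_upwards [h τ hτ0 hτ μ E hi hE] with ω hω
    intro S hS
    refine (hω hS.toFinset).subset ?_
    rintro t ⟨ht, hsup, hlt⟩
    refine ⟨ht, fun v hv => ?_, ?_⟩
    · rcases hsup hv with h1 | h1
      · exact Or.inl ((Set.Finite.mem_toFinset hS).2 h1)
      · exact Or.inr h1
    · have hd : (0 : ℝ) < Module.finrank ℚ K := by
        exact_mod_cast (Module.finrank_pos (R := ℚ) (M := K))
      unfold rad height at hlt
      rw [← mul_div_assoc, div_lt_div_iff_of_pos_right hd] at hlt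
      exact hlt

end Pool.Agent.Results.MP_7475bd_nt.RandomInfinitePrimes
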