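import Pool.Agent.X100.NK.Cond

/-!
# The n-term abc inequality over a number field on rational curves, for rational parameters of any
# height

`K` is a number field of degree `N`, and `x ↦ (P_1(x) : ... : P_n(x))` is a rational curve over `K` in
the hyperplane `Z_1 + ... + Z_n = 0`. Its points with rational parameter `x`, of whatever height, are
counted by their radical. The zeros of the `P_j` need not be rational, nor lie in `K`.
-/

set_option autoImplicit false

namespace Pool.Agent.Results.MP_7475bd_nt.RationalCurvesAllHeights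

open NumberField IsDedekindDomain Finset Polynomial

variable {K : Type} [Field K] [NumberField K]

/-- the absolute logarithmic height of the point with the coordinates `z j` -/
noncomputable def ht {n : ℕ} (z : Fin n → K) : ℝ :=
  (∑ w : InfinitePlace K, (w.mult : ℝ) * Real.log (⨆ j, w (z j)) +
    ∑ᶠ v : HeightOneSpectrum (𝓞 K), Real.log (⨆ j, FinitePlace.mk v (z j))) /
      (Module.finrank ℚ K : ℝ)

/-- the radical: `1 / [K : ℚ]` times the sum of `log N(v)` over the primes `v` of `K` at which the
absolute values of the coordinates are not all equal -/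
noncomputable def rad {n : ℕ} (z : Fin n → K) : ℝ :=
  (∑ᶠ (v : HeightOneSpectrum (𝓞 K)) (_ : ¬ ∀ i j, FinitePlace.mk v (z i) = FinitePlace.mk v (z j)),
    Real.log (Ideal.absNorm v.asIdeal : ℝ)) / (Module.finrank ℚ K : ℝ)

/-- the point `(P_1(x) : ... : P_n(x))` of the curve -/
noncomputable def point {n : ℕ} (P : Fin n → (𝓞 K)[X]) (x : ℚ) : Fin n → K :=
  fun j => ((P j).map (algebraMap (𝓞 K) K)).eval (x : K)

/-- The `P_j` are polynomials of degree at most `D`, at least one of them of degree `D ≥ 1`, with
coefficients in the ring of integers of `K`, with sum zero and without a common zero: a curve of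
degree `D` in the hyperplane. The `f_i` are polynomials with integral coefficients which are
irreducible over `ℚ`, of degree `d_i`, such that some zero of `f_i` is a zero of some `P_j`; or
`f_i = 1`, `d_i = 1` stands for the point `∞` of the line, if some `P_j` vanishes there, that is, has
degree less than `D`. The `f_i` are essentially different. -/
structure IsCurve {n m : ℕ} (P : Fin n → (𝓞 K)[X]) (D : ℕ) (f : Fin m → ℤ[X]) (d : Fin m → ℕ) :
    Prop where
  pos : 1 ≤ D
  degree : ∀ j, (P j).natDegree ≤ D
  infinity : ∃ j, (P j).natDegree = D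
  zeros : Ideal.span (Set.range fun j => (P j).map (algebraMap (𝓞 K) K)) = ⊤
  sum : ∑ j, P j = 0
  factors : ∀ i,
    (Irreducible ((f i).map (Int.castRingHom ℚ)) ∧ d i = (f i).natDegree ∧
      ∃ j, ¬ IsCoprime ((f i).map (Int.castRingHom K)) ((P j).map (algebraMap (𝓞 K) K))) ∨
    (f i = 1 ∧ d i = 1 ∧ ∃ j, (P j).natDegree < D)
  distinct : Squarefree ((∏ i, f i).map (Int.castRingHom ℚ))
  once : ∑ i, d i ≤ (∏ i, f i).natDegree + 1

/-- the rational numbers `x`, of whatever height, for which the point of the curve has nonzero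
coordinates and radical at most `log R` -/
def Parameters {n : ℕ} (P : Fin n → (𝓞 K)[X]) (R : ℝ) : Set ℚ :=
  {x | (∀ j, point P x j ≠ 0) ∧ rad (point P x) ≤ Real.log R}

/-- those for which the point violates `h < κ rad + c` -/
def Violating {n : ℕ} (P : Fin n → (𝓞 K)[X]) (κ c R : ℝ) : Set ℚ :=
  {x | x ∈ Parameters P R ∧ κ * rad (point P x) + c ≤ ht (point P x)}

/-- the number of the factors, those of degree at least three counted twice -/
def weight {m : ℕ} (d : Fin m → ℕ) : ℕ := ∑ i, if d i ≤ 2 then 1 else 2

/-- for `R ≥ 1` at most `C R ^ θ (1 + log R) ^ e` rational parameters lead to points with radical at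
most `log R`; in particular, for all `κ` and `c` at most so many lead to violations -/
def Bound {n : ℕ} (P : Fin n → (𝓞 K)[X]) (θ : ℝ) : Prop :=
  ∃ (C : ℝ) (e : ℕ), 0 < C ∧ ∀ R : ℝ, 1 ≤ R →
    (Parameters P R).Finite ∧ ((Parameters P R).ncard : ℝ) ≤ C * R ^ θ * (1 + Real.log R) ^ e ∧
    ∀ κ c : ℝ, (Violating P κ c R).Finite ∧
      ((Violating P κ c R).ncard : ℝ) ≤ C * R ^ θ * (1 + Real.log R) ^ e

theorem general {n m : ℕ} (P : Fin n → (𝓞 K)[X]) (D : ℕ) (f : Fin m → ℤ[X]) (d : Fin m → ℕ)
    (h : IsCurve P D f d) {θ : ℝ} (hcnt : X100.Nt.Cnt f d θ) :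
    Bound P ((Module.finrank ℚ K : ℝ) * θ) := by
  obtain ⟨C, e, hC, H⟩ := X100.NK.count P D h.pos h.degree h.infinity h.zeros f d h.factors hcnt
  refine ⟨C, e, hC, fun R hR => ?_⟩
  have hall : ∀ S ⊆ Parameters P R, S.Finite ∧
      (S.ncard : ℝ) ≤ C * R ^ ((Module.finrank ℚ K : ℝ) * θ) * (1 + Real.log R) ^ e :=
    fun S hS => H R hR S fun t ht => hS ht
  exact ⟨(hall _ (le_refl _)).1, (hall _ (le_refl _)).2, fun κ c => hall _ fun t ht => ht.1⟩

/-- **The n-term abc inequality on rational curves over a number field, rational parameters.**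
Let `K` be a number field of degree `N` and let `P`, `D`, `f`, `d` be as in `IsCurve`.
(1) If at least three of the `f_i` are linear, there are `C` and `e` such that for all `R ≥ 1` at
most `C R ^ (2 N / weight d) (1 + log R) ^ e` rational numbers `x`, of whatever height, lead to
points of the curve with nonzero coordinates and with radical at most `log R`; in particular, for all
`κ` and `c` at most so many lead to points with `h ≥ κ rad + c`.
(2) Let `B_1, …, B_g` be sets of the `f_i` of total degree at least three each, such that every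
`f_i` is in at most `c` of them. Then the same holds with the exponent `N c / g`. -/
theorem result (K : Type) [Field K] [NumberField K] (n D m : ℕ) (P : Fin n → (𝓞 K)[X])
    (f : Fin m → ℤ[X]) (d : Fin m → ℕ) (h : IsCurve P D f d) :
    (3 ≤ (univ.filter (fun i => d i = 1)).card →
      Bound P ((Module.finrank ℚ K : ℝ) * (2 / (weight d : ℝ)))) ∧
    ∀ (g c : ℕ) (B : Fin g → Finset (Fin m)), 1 ≤ g → (∀ b, 3 ≤ ∑ i ∈ B b, d i) →
      (∀ i, (univ.filter (fun b => i ∈ B b)).card ≤ c) →
      Bound P ((Module.finrank ℚ K : ℝ) * ((c : ℝ) / g)) := by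
  have hd1 : ∀ i, (f i).natDegree ≤ d i ∧ 1 ≤ d i := by
    intro i
    rcases h.factors i with ⟨h1, h2, -⟩ | ⟨h1, h2, -⟩
    · refine ⟨h2.ge, ?_⟩
      rw [h2, ← natDegree_map_eq_of_injective (f := Int.castRingHom ℚ) Int.cast_injective]
      exact h1.natDegree_pos
    · rw [h1, h2, natDegree_one]
      omega
  refine ⟨fun h3 => ?_, fun g c B hg hB hc => ?_⟩
  · exact general P D f d h (X100.Nt.cnt_mixed f d (fun i => (hd1 i).1) (fun i => (hd1 i).2)
      h.distinct h.once h3)
  · have hne : Nonempty (Fin g) := Fin.pos_iff_nonempty.1 hg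
    have h1 := X100.Nt.cnt_blocks (β := Fin g) f d (fun i => (hd1 i).1) h.distinct h.once B hB c hc
    rw [Fintype.card_fin] at h1
    exact general P D f d h h1

end Pool.Agent.Results.MP_7475bd_nt.RationalCurvesAllHeights
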