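import Pool.Agent.X61.RS.NTerm
import Pool.Agent.Y902.GN.FinB

/-!
# The `n`-term abc equation in units of random primes

Let `S₀` be a set of `c` primes and `T` a random set of `k` other primes, all of them at most `N`. We
consider the relations `u_1 a_1 + ... + u_n a_n = 0` without vanishing subsums between coprime
integers `a_i = s_i v_i`, where `v_i` is composed of the primes of `S₀ ∪ T` and `|s_i| ≤ B` (for
`u_i = 1` and `B = 1` this is the unit equation, whose solutions are the points without outside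
primes in the `n`-term abc conjecture). For all but `C (B + 1) ^ n N ^ (k - 1 + ε)` of the about
`N ^ k` sets `T` the primes of `T` do not occur in any such relation of height at most
`exp (N ^ δ)`: every relation is one for `S₀` alone.
-/

set_option autoImplicit false

namespace Pool.Agent.Results.MP_7475bd_nt.UnitsOfRandomPrimes

open Finset

/-- `m` is nonzero and all its prime factors belong to `S` -/
def Made (S : Finset ℕ) (m : ℤ) : Prop := m ≠ 0 ∧ ∀ p : ℕ, p.Prime → (p : ℤ) ∣ m → p ∈ S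

/-- there is a relation `∑ u i * a i = 0` without vanishing subsums between coprime nonzero integers
`a i = s i * v i`, `|a i| ≤ H`, where `|s i| ≤ B` and all prime factors of `v i` belong to `S₀ ∪ T`,
such that some prime of `T` divides some `a i` -/
def NewRelation {n : ℕ} (u : Fin n → ℤ) (S₀ T : Finset ℕ) (B : ℕ) (H : ℝ) : Prop :=
  ∃ a s v : Fin n → ℤ,
    (∀ i, a i = s i * v i ∧ a i ≠ 0 ∧ |s i| ≤ (B : ℤ) ∧ Made (S₀ ∪ T) (v i)) ∧
    Finset.univ.gcd a = 1 ∧ ∑ i, u i * a i = 0 ∧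
    (∀ K : Finset (Fin n), K.Nonempty → K ≠ Finset.univ → ∑ i ∈ K, u i * a i ≠ 0) ∧
    (∀ i, ((|a i| : ℤ) : ℝ) ≤ H) ∧ ∃ i, ∃ p ∈ T, (p : ℤ) ∣ a i

/-- the sets `T` of `k` primes up to `N` which are not in `S₀`, for which there is a relation
involving a prime of `T` -/
def Exceptional {n : ℕ} (u : Fin n → ℤ) (S₀ : Finset ℕ) (k N B : ℕ) (H : ℝ) :
    Set (Finset ℕ) :=
  {T | (∀ p ∈ T, p.Prime ∧ p ≤ N ∧ p ∉ S₀) ∧ T.card = k ∧ NewRelation u S₀ T B H}

theorem prod_enum {α : Type} [CommMonoid α] (S : Finset ℕ) {c : ℕ} (h : S.card = c) (f : ℕ → α) :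
    ∏ j : Fin c, f (S.orderEmbOfFin h j) = ∏ q ∈ S, f q := by
  conv_rhs => rw [← map_orderEmbOfFin_univ S h, prod_map]
  rfl

theorem made_eq {S : Finset ℕ} {m : ℤ} (h : Made S m) :
    m.natAbs = ∏ q ∈ S, q ^ m.natAbs.factorization q := by
  have h0 : m.natAbs ≠ 0 := Int.natAbs_ne_zero.2 h.1
  conv_lhs => rw [← Nat.prod_factorization_pow_eq_self h0]
  rw [Finsupp.prod_of_support_subset _ _ _ (fun q _ => pow_zero q)]
  intro q hq
  rw [Nat.support_factorization, Nat.mem_primeFactors] at hq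
  exact h.2 q hq.1 (Int.natCast_dvd.2 hq.2.1)

theorem part_dvd {S : Finset ℕ} (hS : ∀ q ∈ S, q.Prime) (m : ℕ) :
    ∏ q ∈ S, q ^ m.factorization q ∣ m := by
  have h1 : ((∏ q ∈ S, (q : ℤ) ^ m.factorization q)) ∣ (m : ℤ) := by
    refine Finset.prod_dvd_of_coprime ?_ ?_
    · intro p hp q hq hpq
      refine IsCoprime.pow ?_
      exact Nat.isCoprime_iff_coprime.2 ((Nat.coprime_primes (hS p hp) (hS q hq)).2 hpq)
    · intro q _
      exact_mod_cast Nat.ordProj_dvd m q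
  exact_mod_cast h1

theorem outer_le {S : Finset ℕ} (hS : ∀ q ∈ S, q.Prime) {a s v : ℤ} (ha : a = s * v)
    (h0 : a ≠ 0) (hv : Made S v) : ∃ s' : ℤ, |s'| ≤ |s| ∧
      a = s' * ((∏ q ∈ S, q ^ a.natAbs.factorization q : ℕ) : ℤ) := by
  have hm : a.natAbs ≠ 0 := Int.natAbs_ne_zero.2 h0
  obtain ⟨w, hw⟩ : ∃ w : ℕ, w = ∏ q ∈ S, q ^ a.natAbs.factorization q := ⟨_, rfl⟩
  rw [← hw]
  have hw0 : 0 < w := by
    rw [hw]
    exact prod_pos fun q hq => pow_pos (hS q hq).pos _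
  have h1 : (w : ℤ) ∣ a := Int.natCast_dvd.2 (by rw [hw]; exact part_dvd hS _)
  obtain ⟨s', hs'⟩ := h1
  refine ⟨s', ?_, by rw [hs', mul_comm]⟩
  -- `v` divides `w`
  have h2 : v.natAbs ∣ w := by
    rw [made_eq hv, hw]
    refine Finset.prod_dvd_prod_of_dvd _ _ fun q _ => pow_dvd_pow q ?_
    have h3 : v.natAbs ∣ a.natAbs := by
      rw [ha, Int.natAbs_mul]
      exact Dvd.intro_left _ rfl
    exact (Nat.factorization_le_iff_dvd (Int.natAbs_ne_zero.2 hv.1) hm).2 h3 q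
  have h3 : v.natAbs ≤ w := Nat.le_of_dvd hw0 h2
  have h4 : |s'| * (w : ℤ) = |s| * |v| := by
    have h5 : |a| = |s| * |v| := by rw [ha, abs_mul]
    have h6 : |a| = |s'| * (w : ℤ) := by
      rw [hs', abs_mul, Nat.abs_cast, mul_comm]
    rw [← h5, h6]
  have h5 : |v| ≤ (w : ℤ) := by
    rw [Int.abs_eq_natAbs]
    exact_mod_cast h3
  have h6 : (0 : ℤ) < w := by exact_mod_cast hw0
  have h7 : |s'| * (w : ℤ) ≤ |s| * (w : ℤ) := by
    rw [h4]
    exact mul_le_mul_of_nonneg_left h5 (abs_nonneg _)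
  exact le_of_mul_le_mul_right h7 h6

/-- **Random primes in the `n`-term abc equation.** For all `n`, `c`, `k` and `ε > 0` there are
`δ, C > 0` such that for all `N ≥ 1`, `B ≤ N`, all sets `S₀` of `c` primes up to `N` and all nonzero
integers `|u_i| ≤ exp (N ^ δ)` at most `C (B + 1) ^ n N ^ (k - 1 + ε)` of the sets `T` of `k` primes up
to `N` outside `S₀` are exceptional, with `H = exp (N ^ δ)`. -/
theorem result (n c k : ℕ) (ε : ℝ) (hε : 0 < ε) : ∃ δ C : ℝ, 0 < δ ∧ 0 < C ∧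
    ∀ (N B : ℕ) (S₀ : Finset ℕ) (u : Fin n → ℤ), 1 ≤ N → B ≤ N → S₀.card = c →
      (∀ p ∈ S₀, p.Prime ∧ p ≤ N) →
      (∀ i, u i ≠ 0 ∧ ((|u i| : ℤ) : ℝ) ≤ Real.exp ((N : ℝ) ^ δ)) →
      (Exceptional u S₀ k N B (Real.exp ((N : ℝ) ^ δ))).Finite ∧
      ((Exceptional u S₀ k N B (Real.exp ((N : ℝ) ^ δ))).ncard : ℝ) ≤
        C * ((B : ℝ) + 1) ^ n * (N : ℝ) ^ ((k : ℝ) - 1 + ε) := by
  classical
  obtain ⟨δ, C, hδ, hC, h⟩ := Pool.Agent.X61.RS.nterm_count n c k ε hε
  refine ⟨δ, C, hδ, hC, fun N B S₀ u hN hB hc hS₀ hu => ?_⟩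
  refine Pool.Agent.Y902.GN.fin_of_bound _ _ fun F hF => ?_
  -- enumerate the sets
  let g : Finset ℕ → Fin k → ℕ := fun T => if hT : T.card = k then T.orderEmbOfFin hT else 0
  have hg : ∀ T ∈ F, ∃ hT : T.card = k, g T = T.orderEmbOfFin hT := fun T hT =>
    ⟨(hF T hT).2.1, by simp only [g, dif_pos (hF T hT).2.1]⟩
  have hinj : Set.InjOn g F := by
    intro T hT T' hT' he
    obtain ⟨h1, h2⟩ := hg T hT
    obtain ⟨h3, h4⟩ := hg T' hT'
    have h5 : (T : Set ℕ) = T' := by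
      rw [← range_orderEmbOfFin T h1, ← range_orderEmbOfFin T' h3, ← h2, ← h4, he]
    exact_mod_cast h5
  rw [← card_image_of_injOn hinj]
  refine h N B (S₀.orderEmbOfFin hc) u hN hB (S₀.orderEmbOfFin hc).injective
    (fun j => hS₀ _ (orderEmbOfFin_mem _ _ _)) hu _ fun l hl => ?_
  rw [mem_image] at hl
  obtain ⟨T, hT, rfl⟩ := hl
  obtain ⟨hTk, hgT⟩ := hg T hT
  obtain ⟨hTp, -, a, s, v, h1, h2, h3, h4, h5, i₀, p, hp, hpa⟩ := hF T hT
  rw [hgT]
  refine ⟨(T.orderEmbOfFin hTk).injective, fun j => ?_, fun j i he => ?_, ?_⟩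
  · have := hTp _ (orderEmbOfFin_mem T hTk j)
    exact ⟨this.1, this.2.1⟩
  · refine (hTp _ (orderEmbOfFin_mem T hTk j)).2.2 ?_
    rw [he]
    exact orderEmbOfFin_mem _ _ _
  · have hdis : Disjoint S₀ T := by
      rw [Finset.disjoint_left]
      intro q hq hq'
      exact (hTp q hq').2.2 hq
    have hpr : ∀ q ∈ S₀ ∪ T, q.Prime := by
      intro q hq
      rcases mem_union.1 hq with h6 | h6
      · exact (hS₀ q h6).1
      · exact (hTp q h6).1
    have h6 : ∀ i, ∃ s' : ℤ, |s'| ≤ |s i| ∧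
      a i = s' * ((∏ q ∈ S₀ ∪ T, q ^ (a i).natAbs.factorization q : ℕ) : ℤ) := fun i =>
        outer_le hpr (h1 i).1 (h1 i).2.1 (h1 i).2.2.2
    choose s' hs1 hs2 using h6
    refine ⟨a, s', fun i => (hs1 i).trans (h1 i).2.2.1, fun i => ?_, fun i => (h1 i).2.1,
      fun d hd => ?_, h3, h4, h5, ?_⟩
    · have e1 := prod_enum S₀ hc (fun q => (q : ℤ) ^ (a i).natAbs.factorization q)
      have e2 := prod_enum T hTk (fun q => (q : ℤ) ^ (a i).natAbs.factorization q)
      have e3 := hs2 i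
      rw [prod_union hdis] at e3
      push_cast at e3
      rw [← e1, ← e2] at e3
      exact e3
    · have h7 : (d : ℤ) ∣ Finset.univ.gcd a := Finset.dvd_gcd fun i _ => hd i
      rw [h2] at h7
      have h8 := Int.natAbs_dvd_natAbs.2 h7
      simpa using h8
    · have h7 : p ∈ Set.range (T.orderEmbOfFin hTk) := by
        rw [range_orderEmbOfFin]
        exact hp
      obtain ⟨j, hj⟩ := h7
      exact ⟨i₀, j, by rw [hj]; exact hpa⟩

end Pool.Agent.Results.MP_7475bd_nt.UnitsOfRandomPrimes
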